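import Pool.Agent.helper32.EXC.Spec11

/-!
# Project EXC (MP_561ff4_al), row T11CNJ: `GE` is transitive on the pairs of extremal vectors of given type and given form value
-/

set_option autoImplicit false

open Finset

namespace Pool.Agent.EXC

theorem T11CNJ_io {n : ℕ} (C : Matrix (Fin n) (Fin n) ℤ) {F : Type} [Field F] (δ : Fin 5 → Fin n) (a b : Fin 6) (hab : a ≠ b) :
    io C δ (Matrix.single a b (1 : F)) = (et a b : F) • (E C (ro δ a b) : Lm C F) := by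
  have h1 : ∀ k : Fin 5, (∑ i : Fin 6, if (i : ℕ) ≤ k then (Matrix.single a b (1 : F)) i i else 0) = 0 := by
    intro k
    refine Finset.sum_eq_zero fun i _ => ?_
    have : (Matrix.single a b (1 : F)) i i = 0 := by
      rw [Matrix.single_apply]
      refine if_neg ?_
      rintro ⟨h, h'⟩
      exact hab (h.trans h'.symm)
    rw [this]
    simp
  have h2 : ∀ i j : Fin 6, (if i = j then 0 else ((et i j : F) * (Matrix.single a b (1 : F)) i j) • E C (ro δ i j) : Lm C F) =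
      if i = a then (if j = b then (et a b : F) • (E C (ro δ a b) : Lm C F) else 0) else 0 := by
    intro i j
    by_cases hi : i = a
    · by_cases hj : j = b
      · subst hi; subst hj
        rw [if_neg hab, if_pos rfl, if_pos rfl, Matrix.single_apply, if_pos ⟨rfl, rfl⟩, mul_one]
      · rw [if_pos hi, if_neg hj]
        split_ifs with h
        · rfl
        · rw [Matrix.single_apply, if_neg (fun h => hj h.2.symm), mul_zero, zero_smul]
    · rw [if_neg hi]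
      split_ifs with h
      · rfl
      · rw [Matrix.single_apply, if_neg (fun h => hi h.1.symm), mul_zero, zero_smul]
  rw [io]
  simp only [h1, h2, zero_smul, Finset.sum_const_zero, zero_add]
  rw [Finset.sum_eq_single a]
  · simp only [if_true]
    rw [Finset.sum_eq_single b, if_pos rfl]
    · intro j _ hj
      rw [if_neg hj]
    · intro h
      exact absurd (Finset.mem_univ b) h
  · intro i _ hi
    refine Finset.sum_eq_zero fun j _ => ?_
    rw [if_neg hi]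
  · intro h
    exact absurd (Finset.mem_univ a) h

theorem T11CNJ_et {F : Type} [Field F] (a b : Fin 6) : ((et a b : ℤ) : F) * ((et a b : ℤ) : F) = 1 := by
  unfold et
  split_ifs <;> simp

/-- the lift of a diagonal matrix -/
theorem T11CNJ_diag (hLIF : LIF_stmt) {n : ℕ} (C : Matrix (Fin n) (Fin n) ℤ) [IsC C] {F : Type} [Field F] (j0 : Fin n) (θ : Fin n → ℤ)
    (δ : Fin 5 → Fin n) (hE : IsE C j0 θ δ) (d : Fin 6 → F) (hd : ∏ i, d i = 1) :
    ∃ h ∈ GE C F, ∀ a b : Fin 6, a ≠ b → h (E C (ro δ a b)) = (d a * (d b)⁻¹) • (E C (ro δ a b) : Lm C F) := by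
  have hne : ∀ i, d i ≠ 0 := by
    intro i hi
    have : ∏ i, d i = 0 := Finset.prod_eq_zero (Finset.mem_univ i) hi
    rw [hd] at this
    exact one_ne_zero this
  have hD : (Matrix.diagonal d).det = 1 := by rw [Matrix.det_diagonal, hd]
  have hD' : (Matrix.diagonal fun i => (d i)⁻¹).det = 1 := by
    rw [Matrix.det_diagonal, Finset.prod_inv_distrib, hd, inv_one]
  let D : Matrix.SpecialLinearGroup (Fin 6) F := ⟨Matrix.diagonal d, hD⟩
  let D' : Matrix.SpecialLinearGroup (Fin 6) F := ⟨Matrix.diagonal fun i => (d i)⁻¹, hD'⟩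
  have hDD : D * D' = 1 := by
    apply Subtype.ext
    change Matrix.diagonal d * Matrix.diagonal (fun i => (d i)⁻¹) = 1
    rw [Matrix.diagonal_mul_diagonal, ← Matrix.diagonal_one]
    congr 1
    funext i
    exact mul_inv_cancel₀ (hne i)
  have hinv : D⁻¹ = D' := inv_eq_of_mul_eq_one_right hDD
  obtain ⟨h, hG, hR⟩ := hLIF n C F j0 θ δ hE D
  refine ⟨h, hG, fun a b hab => ?_⟩
  have htr : (Matrix.single a b (1 : F)).trace = 0 := by
    rw [Matrix.trace]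
    refine Finset.sum_eq_zero fun i _ => ?_
    rw [Matrix.diag_apply, Matrix.single_apply]
    refine if_neg ?_
    rintro ⟨h, h'⟩
    exact hab (h.trans h'.symm)
  have h1 := hR (Matrix.single a b (1 : F)) htr
  have h2 : (D : Matrix (Fin 6) (Fin 6) F) * Matrix.single a b (1 : F) * ((D⁻¹ : Matrix.SpecialLinearGroup (Fin 6) F) : Matrix (Fin 6) (Fin 6) F) =
      (d a * (d b)⁻¹) • Matrix.single a b (1 : F) := by
    rw [hinv]
    change Matrix.diagonal d * Matrix.single a b (1 : F) * Matrix.diagonal (fun i => (d i)⁻¹) = _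
    ext i j
    rw [Matrix.mul_diagonal, Matrix.diagonal_mul, Matrix.smul_apply, Matrix.single_apply, smul_eq_mul]
    split_ifs with h
    · rw [h.1, h.2]
      ring
    · ring
  rw [h2, io_smul, T11CNJ_io C δ a b hab, map_smul] at h1
  have h3 : ((et a b : ℤ) : F) • (((et a b : ℤ) : F) • h (E C (ro δ a b))) =
      ((et a b : ℤ) : F) • ((d a * (d b)⁻¹) • ((et a b : ℤ) : F) • (E C (ro δ a b) : Lm C F)) := congrArg _ h1
  rw [smul_smul, T11CNJ_et, one_smul, smul_smul, smul_smul] at h3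
  rw [h3]
  congr 1
  have e := T11CNJ_et (F := F) a b
  linear_combination (d a * (d b)⁻¹) * e

/-- normal form of a pair of type `ip (ρ_01, ρ_cd)` -/
theorem T11CNJ_norm (hTHT : THT_stmt) (hNBR : NBR_stmt) (hWPG : WPG_stmt) (hRHO : RHO_stmt) {n : ℕ} (C : Matrix (Fin n) (Fin n) ℤ) [IsC C]
    {F : Type} [Field F] (j0 : Fin n) (θ : Fin n → ℤ) (δ : Fin 5 → Fin n) (hE : IsE C j0 θ δ) (c d : Fin 6) (hcd : c ≠ d) (m : ℤ)
    (hm : m = -2 ∨ m = -1 ∨ m = 0) (hip : ip C (ro δ 0 1) (ro δ c d) = m) (a b : Lm C F) (hT : Tp C θ a b m) :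
    ∃ g ∈ GE C F, ∃ κ κ' : F, κ ≠ 0 ∧ κ' ≠ 0 ∧ g a = κ • (E C (ro δ 0 1) : Lm C F) ∧ g b = κ' • (E C (ro δ c d) : Lm C F) := by
  obtain ⟨k, hk, β, hβ, hθβ, x, x', hx, hx', hka, hkb⟩ := hT
  have hR := (hRHO n C j0 θ δ hE).1
  have hr1 : ip C (ro δ 0 1) (ro δ 0 1) = 2 := by rw [hR]; decide
  have hr2 : ip C (ro δ c d) (ro δ c d) = 2 := by
    rw [hR, if_pos rfl, if_pos rfl, if_neg hcd, if_neg (Ne.symm hcd)]; rfl
  have hW : WP C (θ, β) (ro δ 0 1, ro δ c d) := hTHT n C j0 θ δ hE θ β (ro δ 0 1) (ro δ c d) hE.th2 hβ hr1 hr2 (by rw [hθβ, hip])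
    (by rw [hθβ]; exact hm)
  obtain ⟨g, hg, s, s', hs, hs', h1, h2⟩ := hWPG n C F (hNBR n C j0 θ δ hE).1 θ β (ro δ 0 1) (ro δ c d) hE.th2 hβ hW
  have hs0 : (s : F) ≠ 0 := by rcases hs with h | h <;> rw [h] <;> simp
  have hs0' : (s' : F) ≠ 0 := by rcases hs' with h | h <;> rw [h] <;> simp
  refine ⟨g * k, (GE C F).mul_mem hg hk, x * s, x' * s', mul_ne_zero hx hs0, mul_ne_zero hx' hs0', ?_, ?_⟩
  · rw [LinearEquiv.mul_apply, hka, map_smul, h1, smul_smul]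
  · rw [LinearEquiv.mul_apply, hkb, map_smul, h2, smul_smul]

/-- the last step: `h` scales the two root vectors in the right way -/
theorem T11CNJ_fin (hLIF : LIF_stmt) {n : ℕ} (C : Matrix (Fin n) (Fin n) ℤ) [IsC C] {F : Type} [Field F] (j0 : Fin n) (θ : Fin n → ℤ)
    (δ : Fin 5 → Fin n) (hE : IsE C j0 θ δ) (c d : Fin 6) (hcd : c ≠ d) (dd : Fin 6 → F) (hdd : ∏ i, dd i = 1) (a b a' b' : Lm C F)
    (g g' : Lm C F ≃ₗ[F] Lm C F) (hg : g ∈ GE C F) (hg' : g' ∈ GE C F) (κ κ' μ μ' : F)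
    (h1 : g a = κ • (E C (ro δ 0 1) : Lm C F)) (h2 : g b = κ' • (E C (ro δ c d) : Lm C F))
    (h3 : g' a' = μ • (E C (ro δ 0 1) : Lm C F)) (h4 : g' b' = μ' • (E C (ro δ c d) : Lm C F))
    (h5 : κ * (dd 0 * (dd 1)⁻¹) = μ) (h6 : κ' * (dd c * (dd d)⁻¹) = μ') : ∃ x ∈ GE C F, x a = a' ∧ x b = b' := by
  obtain ⟨h, hh, hact⟩ := T11CNJ_diag hLIF C j0 θ δ hE dd hdd
  refine ⟨g'⁻¹ * h * g, (GE C F).mul_mem ((GE C F).mul_mem ((GE C F).inv_mem hg') hh) hg, ?_, ?_⟩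
  · rw [LinearEquiv.mul_apply, LinearEquiv.mul_apply, h1, map_smul, hact 0 1 (by decide), smul_smul, h5, ← h3]
    exact g'.symm_apply_apply a'
  · rw [LinearEquiv.mul_apply, LinearEquiv.mul_apply, h2, map_smul, hact c d hcd, smul_smul, h6, ← h4]
    exact g'.symm_apply_apply b'

theorem T11CNJ (hTHT : THT_stmt) (hNBR : NBR_stmt) (hWPG : WPG_stmt) (hRHO : RHO_stmt) (hLIF : LIF_stmt) (hEXF : EXF_stmt) : T11CNJ_stmt := by
  intro n C _ F _ j0 θ δ hE a b a' b' m hm hT hT' hfm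
  have hR := (hRHO n C j0 θ δ hE).1
  have hneg := (hRHO n C j0 θ δ hE).2.2.2.1
  have hAu := (hEXF n C F (hNBR n C j0 θ δ hE).1).1
  have hr : ∀ x y : Fin 6, x ≠ y → ip C (ro δ x y) (ro δ x y) = 2 := by
    intro x y hxy
    rw [hR, if_pos rfl, if_pos rfl, if_neg hxy, if_neg (Ne.symm hxy)]; rfl
  rcases hm with h0 | h0 | h0
  · -- m = -2
    have hip : ip C (ro δ 0 1) (ro δ 1 0) = m := by rw [hR, h0]; decide
    obtain ⟨g, hg, κ, κ', hκ, hκ', h1, h2⟩ := T11CNJ_norm hTHT hNBR hWPG hRHO C j0 θ δ hE 1 0 (by decide) m (Or.inl h0) hip a b hT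
    obtain ⟨g', hg', μ, μ', hμ, hμ', h3, h4⟩ := T11CNJ_norm hTHT hNBR hWPG hRHO C j0 θ δ hE 1 0 (by decide) m (Or.inl h0) hip a' b' hT'
    have e0 : fm C (E C (ro δ 0 1) : Lm C F) (E C (ro δ 1 0)) = 1 := by
      rw [fm_E C (hr 0 1 (by decide)), cf_E C (hr 1 0 (by decide)), hneg 0 1, if_pos rfl]
    have e1 : fm C a b = κ * κ' := by
      rw [← (hAu g hg).fm, h1, h2, fm_smul_left, fm_smul_right, e0, mul_one]
    have e2 : fm C a' b' = μ * μ' := by
      rw [← (hAu g' hg').fm, h3, h4, fm_smul_left, fm_smul_right, e0, mul_one]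
    have e3 : κ * κ' = μ * μ' := by rw [← e1, ← e2, hfm]
    refine T11CNJ_fin hLIF C j0 θ δ hE 1 0 (by decide) ![μ / κ, 1, 1, 1, 1, κ / μ] ?_ a b a' b' g g' hg hg' κ κ' μ μ' h1 h2 h3 h4 ?_ ?_
    · simp only [Fin.prod_univ_six]
      change μ / κ * 1 * 1 * 1 * 1 * (κ / μ) = 1
      field_simp
    · change κ * (μ / κ * 1⁻¹) = μ
      field_simp
    · change κ' * (1 * (μ / κ)⁻¹) = μ'
      field_simp
      rw [mul_comm κ' κ, e3]
  · -- m = -1
    have hip : ip C (ro δ 0 1) (ro δ 1 2) = m := by rw [hR, h0]; decide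
    obtain ⟨g, hg, κ, κ', hκ, hκ', h1, h2⟩ := T11CNJ_norm hTHT hNBR hWPG hRHO C j0 θ δ hE 1 2 (by decide) m (Or.inr (Or.inl h0)) hip a b hT
    obtain ⟨g', hg', μ, μ', hμ, hμ', h3, h4⟩ := T11CNJ_norm hTHT hNBR hWPG hRHO C j0 θ δ hE 1 2 (by decide) m (Or.inr (Or.inl h0)) hip a' b' hT'
    refine T11CNJ_fin hLIF C j0 θ δ hE 1 2 (by decide) ![μ / κ, 1, κ' / μ', 1, 1, (μ' / κ') * (κ / μ)] ?_ a b a' b' g g' hg hg'
      κ κ' μ μ' h1 h2 h3 h4 ?_ ?_
    · simp only [Fin.prod_univ_six]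
      change μ / κ * 1 * (κ' / μ') * 1 * 1 * ((μ' / κ') * (κ / μ)) = 1
      field_simp
    · change κ * (μ / κ * 1⁻¹) = μ
      field_simp
    · change κ' * (1 * (κ' / μ')⁻¹) = μ'
      field_simp
  · -- m = 0
    have hip : ip C (ro δ 0 1) (ro δ 2 3) = m := by rw [hR, h0]; decide
    obtain ⟨g, hg, κ, κ', hκ, hκ', h1, h2⟩ := T11CNJ_norm hTHT hNBR hWPG hRHO C j0 θ δ hE 2 3 (by decide) m (Or.inr (Or.inr h0)) hip a b hT
    obtain ⟨g', hg', μ, μ', hμ, hμ', h3, h4⟩ := T11CNJ_norm hTHT hNBR hWPG hRHO C j0 θ δ hE 2 3 (by decide) m (Or.inr (Or.inr h0)) hip a' b' hT'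
    refine T11CNJ_fin hLIF C j0 θ δ hE 2 3 (by decide) ![μ / κ, 1, μ' / κ', 1, 1, (κ / μ) * (κ' / μ')] ?_ a b a' b' g g' hg hg'
      κ κ' μ μ' h1 h2 h3 h4 ?_ ?_
    · simp only [Fin.prod_univ_six]
      change μ / κ * 1 * (μ' / κ') * 1 * 1 * ((κ / μ) * (κ' / μ')) = 1
      field_simp
    · change κ * (μ / κ * 1⁻¹) = μ
      field_simp
    · change κ' * (μ' / κ' * 1⁻¹) = μ'
      field_simp

end Pool.Agent.EXC
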